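import Pool.Agent.R536.CS.InP

/-!
# Cycle stable roommates with bounded preference lists: the dichotomy

For preference lists of length at most `L`, deciding whether a stable roommates instance with
incomplete lists admits a cycle stable matching, and deciding whether it admits a `3`-cycle stable
matching, are both NP-complete for every `L ≥ 3` and both in P for every `L ≤ 2`.
-/

set_option autoImplicit false

namespace Pool.Agent.Results.MP_68674a_lc.Dichotomy

open Pool.Agent.NPC Pool.Agent.NPC.R536CS

/-- NP-completeness of a decision problem about encodable data. -/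
def NPComplete {α : Type} [TEnc α] (P : α → Prop) : Prop := InNPP P ∧ NPHardP P

/-- The complexity of CS(L) and of CS₃(L) as a function of `L`. -/
theorem result (L : ℕ) :
    (3 ≤ L → NPComplete (CS L) ∧ NPComplete (CS3 L)) ∧
    (L ≤ 2 → InPP (CS L) ∧ InPP (CS3 L)) :=
  ⟨fun h => ⟨⟨np_CS L, hard_CS h⟩, ⟨np_CS3 L, hard_CS3 h⟩⟩, fun h => ⟨p_CS h, p_CS3 h⟩⟩

end Pool.Agent.Results.MP_68674a_lc.Dichotomy
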